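import Pool.Agent.Lib.MP_2e0873_gt.Core

set_option autoImplicit false

namespace Pool.Agent.Results.MP_2e0873_gt.ProductEberlein

open Topology Set

universe u v

/-- `C_p(X)`: the continuous real functions on `X` with the topology of pointwise convergence,
that is, with the subspace topology of the product `ℝ^X`. -/
abbrev Cp (X : Type u) [TopologicalSpace X] : Type u := {f : X → ℝ // Continuous f}

/-- `L` is an Eberlein compact: it is homeomorphic to a weakly compact subset of a real Banach
space. -/
def IsEberlein (L : Type v) [TopologicalSpace L] : Prop :=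
  ∃ (E : Type u) (_ : NormedAddCommGroup E) (_ : NormedSpace ℝ E) (_ : CompleteSpace E)
    (S : Set (WeakSpace ℝ E)), IsCompact S ∧ Nonempty (L ≃ₜ S)

/-- `L` is an Eberlein compact in the second description (Amir and Lindenstrauss): it is compact
and embeds in `C_p(Y)` for some compact Hausdorff space `Y`. -/
def IsEberlein' (L : Type v) [TopologicalSpace L] : Prop :=
  CompactSpace L ∧ ∃ (Y : Type u) (_ : TopologicalSpace Y) (_ : CompactSpace Y) (_ : T2Space Y)
    (e : L → Cp Y), IsEmbedding e

theorem isEberlein_of_metrizable (L : Type) [TopologicalSpace L] [CompactSpace L]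
    [TopologicalSpace.MetrizableSpace L] : IsEberlein.{0} L := by
  obtain ⟨E, i1, i2, i3, e, he⟩ := EBC.embed_of_metrizable L
  exact ⟨E, i1, i2, i3, range e, isCompact_range he.continuous, ⟨he.toHomeomorph⟩⟩

theorem isEberlein'_of_metrizable (L : Type) [TopologicalSpace L] [CompactSpace L]
    [TopologicalSpace.MetrizableSpace L] : IsEberlein'.{0} L := by
  refine ⟨inferInstance, ?_⟩
  let _ := TopologicalSpace.metrizableSpaceMetric L
  refine ⟨L, inferInstance, inferInstance, inferInstance,
    fun a => ⟨fun b => dist a b, by fun_prop⟩, ?_⟩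
  have hc : Continuous (fun a : L => (⟨fun b => dist a b, by fun_prop⟩ : Cp L)) := by
    refine Continuous.subtype_mk (continuous_pi fun b => ?_) _
    fun_prop
  refine (hc.isClosedEmbedding ?_).isEmbedding
  intro a a' h
  have h1 := congrFun (congrArg Subtype.val h) a'
  simp only [dist_self] at h1
  exact dist_eq_zero.1 h1

/-- **Q1 has a negative answer.** -/
theorem result : ∃ (X : Set (((ℕ → ℕ) → Bool) × (ℕ → ℕ))) (K : Type) (_ : TopologicalSpace K),
    IsClosed X ∧ T35Space X ∧
    CompactSpace K ∧ T2Space K ∧ (∃ p : K, ∀ q : K, q ≠ p → IsOpen ({q} : Set K)) ∧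
    (∀ A : Set (Cp X), IsCompact A →
      TopologicalSpace.MetrizableSpace A ∧ IsEberlein.{0} A ∧ IsEberlein'.{0} A) ∧
    ∃ B : Set (Cp (X × K)), IsCompact B ∧ ¬ IsEberlein.{u} B ∧ ¬ IsEberlein'.{u} B := by
  refine ⟨{p | ∀ a : ℕ → ℕ, p.1 a = true → ∀ n, a n ≤ p.2 n}, OnePoint EBC.Td, inferInstance,
    ?_, inferInstance, inferInstance, inferInstance, ⟨OnePoint.infty, ?_⟩, ?_, ?_⟩
  · have : {p : ((ℕ → ℕ) → Bool) × (ℕ → ℕ) | ∀ a : ℕ → ℕ, p.1 a = true → ∀ n, a n ≤ p.2 n} =
        ⋂ (a : ℕ → ℕ) (n : ℕ), {p | p.1 a = true → a n ≤ p.2 n} := by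
      ext p
      simp only [mem_ofPred_eq, mem_iInter]
      exact ⟨fun h a n ha => h a ha n, fun h a ha n => h a n ha⟩
    rw [this]
    refine isClosed_iInter fun a => isClosed_iInter fun n => ?_
    have h1 : Continuous (fun p : ((ℕ → ℕ) → Bool) × (ℕ → ℕ) => (p.1 a, p.2 n)) :=
      ((continuous_apply a).comp continuous_fst).prodMk ((continuous_apply n).comp continuous_snd)
    exact (isClosed_discrete {q : Bool × ℕ | q.1 = true → a n ≤ q.2}).preimage h1
  · intro q hq
    induction q using OnePoint.rec with
    | infty => exact absurd rfl hq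
    | coe t =>
      have := OnePoint.isOpenEmbedding_coe.isOpenMap _ (isOpen_discrete ({t} : Set EBC.Td))
      rwa [image_singleton] at this
  · intro A hA
    have : CompactSpace A := isCompact_iff_compactSpace.1 hA
    have hm : TopologicalSpace.MetrizableSpace A := by
      have h1 := EBC.metrizable_of_compact (Subtype.val '' A) (hA.image continuous_subtype_val)
        (by rintro _ ⟨f, -, rfl⟩; exact f.2)
      have h2 : IsEmbedding (fun f : A => (⟨f.1.1, mem_image_of_mem _ f.2⟩ :
          ↑(Subtype.val '' A : Set (EBC.XX → ℝ)))) :=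
        IsEmbedding.codRestrict (e := fun f : A => f.1.1)
          (IsEmbedding.subtypeVal.comp IsEmbedding.subtypeVal) _
          fun f => mem_image_of_mem _ f.2
      exact h2.metrizableSpace
    exact ⟨hm, isEberlein_of_metrizable A, isEberlein'_of_metrizable A⟩
  · have hcomp : CompactSpace EBC.AF := isCompact_iff_compactSpace.1 EBC.isCompact_AF
    let φ : EBC.AF → Cp (EBC.XX × OnePoint EBC.Td) := fun a => ⟨EBC.FF a, EBC.FF_continuous a.2⟩
    have hφ : Continuous φ := (EBC.FF_continuous_left.comp continuous_subtype_val).subtype_mk _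
    have hφi : Function.Injective φ := by
      intro a b h
      exact Subtype.ext (EBC.FF_injective (congrArg Subtype.val h))
    let ψ : EBC.AF → range φ := fun a => ⟨φ a, a, rfl⟩
    have hψ : Continuous ψ := hφ.subtype_mk _
    have hψi : Function.Injective ψ := by
      intro a b h
      exact hφi (congrArg Subtype.val h)
    refine ⟨range φ, isCompact_range hφ, ?_, ?_⟩
    · rintro ⟨E, i1, i2, i3, S, -, ⟨h⟩⟩
      exact EBC.not_eberlein (fun a => (h (ψ a) : WeakSpace ℝ E))
        (continuous_subtype_val.comp (h.continuous.comp hψ))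
        (Subtype.val_injective.comp (h.injective.comp hψi))
    · rintro ⟨-, Y, i1, i2, i3, e, he⟩
      exact EBC.not_cp (fun a => (e (ψ a)).1)
        (continuous_subtype_val.comp (he.continuous.comp hψ)) (fun a => (e (ψ a)).2)
        (Subtype.val_injective.comp (he.injective.comp hψi))

end Pool.Agent.Results.MP_2e0873_gt.ProductEberlein
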